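import Pool.Agent.Results.MP_b73301_gt.LevelNotSigma

namespace Pool.Agent.Results.MP_b73301_gt.LevelNotClosed

open Pool.Agent.Results.MP_9d0418_gt.NotSigma Pool.Agent.Results.MP_b73301_gt.LevelNotSigma
open Set Filter Topology

/-- the elements of the example -/
inductive T : Type
  | o | z | f (j : Bool) | a (i : ℕ) | b (i : ℕ) | d (i : ℕ) | g (i : ℕ)
  deriving DecidableEq

/-- the directed graph -/
def E : T → T → Bool
  | .f _, .a _ => true
  | .g k, .a i => decide (k ≠ i)
  | .d k, .a i => decide (k = i)
  | .d k, .b i => decide (k = i)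
  | .g k, .b i => decide (k = i)
  | _, _ => false

lemma E_z_left (x : T) : E .z x = false := by cases x <;> rfl
lemma E_o_left (x : T) : E .o x = false := by cases x <;> rfl
lemma E_z_right (x : T) : E x .z = false := by cases x <;> rfl
lemma E_o_right (x : T) : E x .o = false := by cases x <;> rfl

instance : Semigroup T where
  mul x y := if E x y then .z else .o
  mul_assoc x y w := by
    show (if E (if E x y then .z else .o) w then T.z else .o) =
      if E x (if E y w then .z else .o) then T.z else .o
    cases E x y <;> cases E y w <;> simp [E_z_left, E_o_left, E_z_right, E_o_right]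

lemma mul_def (x y : T) : x * y = if E x y then .z else .o := rfl

lemma comm_iff (x y : T) : x * y = y * x ↔ E x y = E y x := by
  rw [mul_def, mul_def]
  cases E x y <;> cases E y x <;> simp

lemma mem_CC (F : Set T) (v : T) : v ∈ Cent (Cent F) ↔
    ∀ w, (∀ x ∈ F, E x w = E w x) → E w v = E v w := by
  simp only [Cent, mem_ofPred_eq, comm_iff]

/-- index of an element -/
def ix : T → ℕ
  | .a i => i | .b i => i | .d i => i | .g i => i | _ => 0

lemma ix_fin (n : ℕ) : {v : T | ix v ≤ n}.Finite := by
  refine (((((finite_Iic n).image T.a).union ((finite_Iic n).image T.b)).union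
    (((finite_Iic n).image T.d).union ((finite_Iic n).image T.g))).union
    (toFinite {T.o, T.z, T.f true, T.f false})).subset ?_
  intro v hv
  cases v with
  | f j => cases j <;> simp
  | o => simp
  | z => simp
  | a i => simpa [ix] using hv
  | b i => simpa [ix] using hv
  | d i => simpa [ix] using hv
  | g i => simpa [ix] using hv

lemma fdc : FDC T := by
  intro F hF
  obtain ⟨n, hn⟩ := (hF.image ix).bddAbove
  refine (ix_fin n).subset fun v hv => ?_
  rw [mem_CC] at hv
  by_contra hlt
  have hlt' : n < ix v := not_le.1 hlt
  have hd : ∀ x ∈ F, E x (.d (ix v)) = E (.d (ix v)) x := by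
    intro x hx
    have := hn (mem_image_of_mem ix hx)
    cases x <;> simp [E, ix] at this ⊢ <;> simp [ix] at hlt' <;> omega
  have hb : ∀ x ∈ F, E x (.b (ix v)) = E (.b (ix v)) x := by
    intro x hx
    have := hn (mem_image_of_mem ix hx)
    cases x <;> simp [E, ix] at this ⊢ <;> simp [ix] at hlt' <;> omega
  have h1 := hv _ hd
  have h2 := hv _ hb
  cases v <;> simp [E, ix] at h1 h2 hlt'

lemma g_mem (k : ℕ) : T.g k ∈ Level T 3 := by
  have : Cent (Cent {T.g k}) ⊆ {T.o, T.z, T.g k} := by
    intro v hv
    rw [mem_CC] at hv
    simp only [mem_singleton_iff, forall_eq] at hv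
    have h1 := hv (.a k) (by simp [E])
    cases v with
    | o => simp
    | z => simp
    | f j => simp [E] at h1
    | a i => simpa [E] using hv (.d i) (by simp [E])
    | b i => simpa [E] using hv (.d i) (by simp [E])
    | d i =>
      have h2 : i ≠ k := by simpa [E] using h1
      simpa [E] using hv (.b i) (by simp [E, h2.symm])
    | g i =>
      have h2 : i = k := by simpa [E] using h1
      simp [h2]
  refine (encard_le_encard this).trans ?_
  refine (encard_insert_le _ _).trans ?_
  refine (add_le_add_left (encard_insert_le _ _) _).trans ?_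
  rw [encard_singleton]
  norm_num

lemma f_not : T.f true ∉ Level T 3 := by
  intro h
  have : ({T.o, T.z, T.f true, T.f false} : Set T) ⊆ Cent (Cent {T.f true}) := by
    intro v hv
    rw [mem_CC]
    simp only [mem_singleton_iff, forall_eq]
    intro w hw
    rcases hv with rfl | rfl | rfl | rfl <;> cases w <;> simp [E] at hw ⊢
  have h2 := (encard_le_encard this).trans h
  rw [encard_insert_of_notMem (by simp), encard_insert_of_notMem (by simp),
    encard_insert_of_notMem (by simp), encard_singleton] at h2
  norm_num at h2

lemma ev_left (x : T) : ∀ᶠ k in atTop, x * T.g k = x * T.f true := by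
  refine Eventually.of_forall fun k => ?_
  cases x <;> rfl

lemma ev_right (x : T) : ∀ᶠ k in atTop, T.g k * x = T.f true * x := by
  filter_upwards [eventually_gt_atTop (ix x)] with k hk
  cases x <;> simp [mul_def, E, ix] at hk ⊢ <;> omega

lemma ev (a b : WithOne T) : (a = 1 ∧ b = 1) ∨
    ((∀ᶠ k in atTop, a * T.g k * b = a * T.f true * b) ∧
      ∀ k m, a * T.g k * b ≠ T.g m) := by
  have hne : ∀ x y : T, ∀ m, x * y ≠ T.g m := by
    intro x y m
    rw [mul_def]
    split_ifs <;> simp
  induction a using WithOne.recOneCoe with
  | one =>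
    induction b using WithOne.recOneCoe with
    | one => exact Or.inl ⟨rfl, rfl⟩
    | coe b =>
      right
      simp only [one_mul, ← WithOne.coe_mul, WithOne.coe_inj, ne_eq]
      exact ⟨ev_right b, fun k m => hne _ _ _⟩
  | coe a =>
    right
    induction b using WithOne.recOneCoe with
    | one =>
      simp only [mul_one, ← WithOne.coe_mul, WithOne.coe_inj, ne_eq]
      exact ⟨ev_left a, fun k m => hne _ _ _⟩
    | coe b =>
      simp only [← WithOne.coe_mul, WithOne.coe_inj, ne_eq]
      refine ⟨?_, fun k m => hne _ _ _⟩
      filter_upwards [ev_left a] with k hk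
      rw [hk]

lemma tend : Tendsto T.g atTop (@nhds _ (semiZariski T) (T.f true)) := by
  rw [semiZariski, TopologicalSpace.tendsto_nhds_generateFrom_iff]
  rintro _ (⟨a, b, c, rfl⟩ | ⟨a, b, c, d, rfl⟩) h
  · rcases ev a b with ⟨rfl, rfl⟩ | ⟨h1, -⟩
    · have : {k | ((T.g k : T) : WithOne T) = c}.Subsingleton := fun i hi j hj => by
        have := WithOne.coe_inj.1 (hi.trans hj.symm)
        simpa using this
      have h2 := this.finite.compl_mem_cofinite
      rw [Nat.cofinite_eq_atTop] at h2
      filter_upwards [h2] with k hk
      simpa using hk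
    · filter_upwards [h1] with k hk
      show a * T.g k * b ≠ c
      rw [hk]; exact h
  · rcases ev a b with ⟨rfl, rfl⟩ | ⟨h1, h1'⟩ <;> rcases ev c d with ⟨rfl, rfl⟩ | ⟨h2, h2'⟩
    · exact (h rfl).elim
    · refine Eventually.of_forall fun k => ?_
      show 1 * (T.g k : WithOne T) * 1 ≠ c * T.g k * d
      rw [one_mul, mul_one]
      exact (h2' k k).symm
    · refine Eventually.of_forall fun k => ?_
      show a * T.g k * b ≠ 1 * (T.g k : WithOne T) * 1
      rw [one_mul, mul_one]
      exact h1' k k
    · filter_upwards [h1, h2] with k hk hk'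
      show a * T.g k * b ≠ c * T.g k * d
      rw [hk, hk']; exact h

theorem result : ∃ (S : Type) (_ : Semigroup S) (n : ℕ), FDC S ∧
    ¬ @IsClosed S (semiZariski S) (Level S n) := by
  refine ⟨T, inferInstance, 3, fdc, fun h => f_not ?_⟩
  let _ : TopologicalSpace T := semiZariski T
  exact h.mem_of_tendsto tend (Eventually.of_forall g_mem)

end Pool.Agent.Results.MP_b73301_gt.LevelNotClosed
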