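import Pool.Agent.Results.MP_9d0418_gt.NotSigma

namespace Pool.Agent.Results.MP_b73301_gt.LevelNotSigma

open Pool.Agent.Results.MP_9d0418_gt.NotSigma Set

/-- the elements whose double centralizer has at most `n` elements -/
def Level (S : Type) [Semigroup S] (n : ℕ) : Set S := {f | (Cent (Cent {f})).encard ≤ n}

theorem result : ∃ (S : Type) (_ : Group S) (n : ℕ), FDC S ∧
    ¬ SigmaDiscrete (Level S n) (TopologicalSpace.induced Subtype.val (semiZariski S)) := by
  obtain ⟨G, inst, hG, hns⟩ := Pool.Agent.Results.MP_9d0418_gt.NotSigma.result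
  refine ⟨G, inst, ?_⟩
  by_contra hcon
  push Not at hcon
  choose D h1 h2 using fun n => hcon n hG
  let _ : TopologicalSpace G := semiZariski G
  refine hns ⟨fun m => Subtype.val '' D m.unpair.1 m.unpair.2, ?_, fun m => ?_⟩
  · refine eq_univ_of_forall fun f => ?_
    obtain ⟨n, hn⟩ := (hG {f} (finite_singleton f)).exists_encard_eq_coe
    have hf : f ∈ Level G n := hn.le
    have : (⟨f, hf⟩ : Level G n) ∈ ⋃ k, D n k := h1 n ▸ mem_univ _
    obtain ⟨k, hk⟩ := mem_iUnion.1 this
    exact mem_iUnion.2 ⟨Nat.pair n k, by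
      rw [Nat.unpair_pair]; exact ⟨_, hk, rfl⟩⟩
  · have := h2 m.unpair.1 m.unpair.2
    exact ((Topology.IsEmbedding.subtypeVal).homeomorphImage _).discreteTopology

end Pool.Agent.Results.MP_b73301_gt.LevelNotSigma
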